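import Pool.Agent.Helper42.Jef.Defs2

/-! # Young's inequality `L¹ * L² ⊆ L²`, `ℝ≥0∞`-valued version -/

open MeasureTheory Set Filter Topology
open scoped ENNReal

namespace Pool.Agent.Helper76.Jef

theorem cs_sq {α : Type*} [MeasurableSpace α] (μ : Measure α) (a b : α → ℝ≥0∞)
    (ha : Measurable a) (hb : Measurable b) :
    (∫⁻ s, a s * b s ∂μ) ^ 2 ≤ (∫⁻ s, a s ∂μ) * ∫⁻ s, a s * b s ^ 2 ∂μ := by
  have h := ENNReal.lintegral_mul_le_Lp_mul_Lq μ (p := 2) (q := 2)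
    Real.HolderConjugate.two_two
    (f := fun s => a s ^ (1 / 2 : ℝ)) (g := fun s => a s ^ (1 / 2 : ℝ) * b s)
    (ha.pow_const _).aemeasurable ((ha.pow_const _).mul hb).aemeasurable
  have hhalf : ∀ x : ℝ≥0∞, x ^ (1 / 2 : ℝ) * x ^ (1 / 2 : ℝ) = x := fun x => by
    rw [← ENNReal.rpow_add_of_nonneg _ _ (by norm_num) (by norm_num)]
    norm_num
  have hsq : ∀ x : ℝ≥0∞, (x ^ (1 / 2 : ℝ)) ^ (2 : ℝ) = x := fun x => by
    rw [← ENNReal.rpow_mul]; norm_num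
  have e1 : (∫⁻ s, ((fun s => a s ^ (1 / 2 : ℝ)) * fun s => a s ^ (1 / 2 : ℝ) * b s) s ∂μ) =
      ∫⁻ s, a s * b s ∂μ := by
    refine lintegral_congr fun s => ?_
    simp only [Pi.mul_apply]
    rw [← mul_assoc, hhalf]
  have e2 : (∫⁻ s, (a s ^ (1 / 2 : ℝ)) ^ (2 : ℝ) ∂μ) = ∫⁻ s, a s ∂μ :=
    lintegral_congr fun s => hsq _
  have e3 : (∫⁻ s, (a s ^ (1 / 2 : ℝ) * b s) ^ (2 : ℝ) ∂μ) = ∫⁻ s, a s * b s ^ 2 ∂μ := by
    refine lintegral_congr fun s => ?_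
    rw [ENNReal.mul_rpow_of_nonneg _ _ (by norm_num), hsq]
    norm_num
  rw [e1, e2, e3] at h
  calc (∫⁻ s, a s * b s ∂μ) ^ 2
      ≤ ((∫⁻ s, a s ∂μ) ^ (1 / 2 : ℝ) * (∫⁻ s, a s * b s ^ 2 ∂μ) ^ (1 / 2 : ℝ)) ^ 2 := by
        gcongr
    _ = _ := by
        rw [mul_pow, pow_two, pow_two, hhalf, hhalf]

theorem young {G : Type*} [AddCommGroup G] [MeasurableSpace G] [MeasurableAdd₂ G]
    [MeasurableNeg G] (μ : Measure G) [SFinite μ] [μ.IsAddLeftInvariant] [μ.IsNegInvariant]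
    (a b : G → ℝ≥0∞) (ha : Measurable a) (hb : Measurable b) :
    ∫⁻ t, (∫⁻ s, a (t - s) * b s ∂μ) ^ 2 ∂μ ≤ (∫⁻ r, a r ∂μ) ^ 2 * ∫⁻ s, b s ^ 2 ∂μ := by
  have hm : Measurable fun p : G × G => a (p.1 - p.2) * b p.2 ^ 2 :=
    (ha.comp (measurable_fst.sub measurable_snd)).mul ((hb.comp measurable_snd).pow_const _)
  calc ∫⁻ t, (∫⁻ s, a (t - s) * b s ∂μ) ^ 2 ∂μ
      ≤ ∫⁻ t, (∫⁻ r, a r ∂μ) * ∫⁻ s, a (t - s) * b s ^ 2 ∂μ ∂μ := by
        refine lintegral_mono fun t => ?_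
        refine (cs_sq μ (fun s => a (t - s)) b (ha.comp (measurable_const.sub measurable_id))
          hb).trans_eq ?_
        rw [lintegral_sub_left_eq_self (fun r => a r) t]
    _ = (∫⁻ r, a r ∂μ) * ∫⁻ t, ∫⁻ s, a (t - s) * b s ^ 2 ∂μ ∂μ := by
        rw [lintegral_const_mul _ (Measurable.lintegral_prod_right' hm)]
    _ = (∫⁻ r, a r ∂μ) * ∫⁻ s, ∫⁻ t, a (t - s) * b s ^ 2 ∂μ ∂μ := by
        rw [lintegral_lintegral_swap hm.aemeasurable]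
    _ = (∫⁻ r, a r ∂μ) * ∫⁻ s, (∫⁻ r, a r ∂μ) * b s ^ 2 ∂μ := by
        congr 1
        refine lintegral_congr fun s => ?_
        have h1 : Measurable fun t => a (t - s) := ha.comp (measurable_id.sub measurable_const)
        rw [lintegral_mul_const _ h1, lintegral_sub_right_eq_self (fun r => a r) s]
    _ = _ := by
        rw [lintegral_const_mul _ (hb.pow_const _), ← mul_assoc, ← pow_two]

end Pool.Agent.Helper76.Jef
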