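import Pool.Agent.Helper76.Jef.Plancherel
import Pool.Agent.Helper76.Jef.Young

/-! # `L²` multiplier lemma on space-time: Fourier transform in space, Young in time -/

open MeasureTheory Set Filter Topology
open scoped ENNReal FourierTransform

namespace Pool.Agent.Helper76.Jef

open Pool.Agent.Helper42.Jef

variable {n : ℕ}

theorem st_left : (volume : Measure (ST n)).IsAddLeftInvariant :=
  inferInstanceAs ((volume : Measure ℝ).prod (volume : Measure (Eu n))).IsAddLeftInvariant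

theorem st_haar : (volume : Measure (ST n)).IsAddHaarMeasure :=
  inferInstanceAs ((volume : Measure ℝ).prod (volume : Measure (Eu n))).IsAddHaarMeasure

attribute [local instance] st_haar

theorem eLpNorm_two_sq {α : Type*} [MeasurableSpace α] (μ : Measure α) {F : Type*}
    [NormedAddCommGroup F] (f : α → F) : eLpNorm f 2 μ ^ 2 = ∫⁻ x, ‖f x‖ₑ ^ 2 ∂μ := by
  have h := eLpNorm_nnreal_pow_eq_lintegral (μ := μ) (f := f) (p := 2) (by norm_num)
  simpa using h

theorem enorm_ofReal' (x : ℝ) : ‖(x : ℂ)‖ₑ = ‖x‖ₑ := by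
  rw [← ofReal_norm, ← ofReal_norm, Complex.norm_real]

theorem integrable_conv (k u : ST n → ℝ) (hk : Integrable k) (hu : Integrable u) :
    Integrable (fun p : ST n × ST n => k (p.1 - p.2) * u p.2)
      ((volume : Measure (ST n)).prod volume) := by
  have h := Integrable.convolution_integrand (ContinuousLinearMap.mul ℝ ℝ) hu hk
    (μ := (volume : Measure (ST n)))
  refine h.congr (ae_of_all _ fun p => ?_)
  simp [mul_comm]

theorem integrable_slice (k u : ST n → ℝ) (hk : Integrable k) (hu : Integrable u) :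
    ∀ᵐ t : ℝ, Integrable (fun q : Eu n × ST n => k (t - q.2.1, q.1 - q.2.2) * u q.2)
      ((volume : Measure (Eu n)).prod volume) := by
  have h := integrable_conv k u hk hu
  have hp := (measurePreserving_prodAssoc (volume : Measure ℝ) (volume : Measure (Eu n))
    (volume : Measure (ST n))).symm
  have h2 := (hp.integrable_comp_emb (MeasurableEquiv.measurableEmbedding _)
    (g := fun p : ST n × ST n => k (p.1 - p.2) * u p.2)).mpr h
  exact h2.prod_right_ae

/-- Fourier transform in space of a space-time convolution, at a good time `t` -/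
theorem fourier_cv (k u : ST n → ℝ) (t : ℝ)
    (h3 : Integrable (fun q : Eu n × ST n => k (t - q.2.1, q.1 - q.2.2) * u q.2)
      ((volume : Measure (Eu n)).prod volume)) (ξ : Eu n) :
    𝓕 (fun x : Eu n => (cv k u (t, x) : ℂ)) ξ =
      ∫ s : ℝ, 𝓕 (fun x : Eu n => (k (t - s, x) : ℂ)) ξ * 𝓕 (fun y : Eu n => (u (s, y) : ℂ)) ξ := by
  -- the full integrand
  let Φ : Eu n × ST n → ℂ := fun q =>
    ((Real.fourierChar (-inner ℝ q.1 ξ) : Circle) : ℂ) *
      ((k (t - q.2.1, q.1 - q.2.2) * u q.2 : ℝ) : ℂ)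
  have hchar : Continuous fun x : Eu n => ((Real.fourierChar (-inner ℝ x ξ) : Circle) : ℂ) :=
    continuous_subtype_val.comp (Real.continuous_fourierChar.comp
      (continuous_id.inner continuous_const).neg)
  have hΦ : Integrable Φ ((volume : Measure (Eu n)).prod volume) := by
    have hc : Integrable (fun q : Eu n × ST n =>
        ((k (t - q.2.1, q.1 - q.2.2) * u q.2 : ℝ) : ℂ))
        ((volume : Measure (Eu n)).prod volume) := h3.ofReal
    refine hc.bdd_mul (c := 1) ?_ (ae_of_all _ fun q => ?_)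
    · exact (hchar.comp continuous_fst).aestronglyMeasurable
    · exact (Circle.norm_coe _).le
  have e1 : 𝓕 (fun x : Eu n => (cv k u (t, x) : ℂ)) ξ = ∫ x : Eu n, ∫ q : ST n, Φ (x, q) := by
    rw [Real.fourier_eq]
    refine integral_congr_ae (ae_of_all _ fun x => ?_)
    simp only [Φ, cv]
    rw [integral_const_mul, Circle.smul_def, smul_eq_mul]
    congr 1
    exact integral_complex_ofReal.symm
  have e2 : ∀ q : ST n, ∫ x : Eu n, Φ (x, q) =
      𝓕 (fun x : Eu n => (k (t - q.1, x) : ℂ)) ξ *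
        (((Real.fourierChar (-inner ℝ q.2 ξ) : Circle) : ℂ) * (u q : ℂ)) := by
    intro q
    rw [Real.fourier_eq, ← integral_add_right_eq_self (fun x => Φ (x, q)) q.2]
    rw [← integral_mul_const]
    refine integral_congr_ae (ae_of_all _ fun x => ?_)
    simp only [Φ, add_sub_cancel_right]
    rw [inner_add_left, neg_add, AddChar.map_add_eq_mul]
    simp only [Circle.smul_def, smul_eq_mul, Complex.ofReal_mul, Circle.coe_mul]
    ring
  rw [e1, integral_integral_swap hΦ]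
  simp_rw [e2]
  have hint : Integrable (fun q : ST n => 𝓕 (fun x : Eu n => (k (t - q.1, x) : ℂ)) ξ *
        (((Real.fourierChar (-inner ℝ q.2 ξ) : Circle) : ℂ) * (u q : ℂ))) volume := by
    have := hΦ.integral_prod_right
    refine this.congr (ae_of_all _ fun q => ?_)
    exact e2 q
  rw [Measure.volume_eq_prod, integral_prod _ hint]
  refine integral_congr_ae (ae_of_all _ fun s => ?_)
  simp only
  rw [integral_const_mul]
  rfl

theorem mult_aux (k : ST n → ℝ) (hk : Integrable k) (hkm : StronglyMeasurable k)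
    (B : ℝ → Eu n → ℝ≥0∞) (hB : Measurable (Function.uncurry B))
    (hbound : ∀ᵐ r : ℝ, ∀ ξ : Eu n, ‖𝓕 (fun x : Eu n => (k (r, x) : ℂ)) ξ‖ₑ ≤ B r ξ)
    (A : ℝ≥0∞) (hA : ∀ ξ, ∫⁻ r, B r ξ ≤ A)
    (u : ST n → ℝ) (hu : Integrable u) (hum : StronglyMeasurable u) (hu2 : MemLp u 2) :
    eLpNorm (cv k u) 2 volume ≤ A * eLpNorm u 2 volume := by
  -- measurability of the convolution
  have hvm : StronglyMeasurable (cv k u) := by
    have : StronglyMeasurable (fun p : ST n × ST n => k (p.1 - p.2) * u p.2) :=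
      (hkm.comp_measurable (measurable_fst.sub measurable_snd)).mul
        (hum.comp_measurable measurable_snd)
    exact this.integral_prod_right
  -- `L²` by Young
  have hke : Measurable fun z : ST n => ‖k z‖ₑ := hkm.measurable.enorm
  have hue : Measurable fun z : ST n => ‖u z‖ₑ := hum.measurable.enorm
  have hv2 : ∫⁻ z, ‖cv k u z‖ₑ ^ 2 < ∞ := by
    have h1 : ∀ z, ‖cv k u z‖ₑ ≤ ∫⁻ y, ‖k (z - y)‖ₑ * ‖u y‖ₑ := fun z => by
      refine (enorm_integral_le_lintegral_enorm _).trans_eq ?_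
      exact lintegral_congr fun y => enorm_mul _ _
    calc ∫⁻ z, ‖cv k u z‖ₑ ^ 2 ≤ ∫⁻ z, (∫⁻ y, ‖k (z - y)‖ₑ * ‖u y‖ₑ) ^ 2 :=
          lintegral_mono fun z => by gcongr; exact h1 z
      _ ≤ (∫⁻ z, ‖k z‖ₑ) ^ 2 * ∫⁻ z, ‖u z‖ₑ ^ 2 := young volume _ _ hke hue
      _ < ∞ := by
          apply ENNReal.mul_lt_top
          · exact ENNReal.pow_lt_top hk.2
          · rw [← eLpNorm_two_sq]
            exact ENNReal.pow_lt_top hu2.2
  have hv1 : Integrable (cv k u) := (integrable_conv k u hk hu).integral_prod_left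
  -- slices
  have hs1 : ∀ᵐ t : ℝ, Integrable fun x : Eu n => cv k u (t, x) := by
    have : Integrable (cv k u) ((volume : Measure ℝ).prod (volume : Measure (Eu n))) := hv1
    exact this.prod_right_ae
  have hs2 : ∀ᵐ t : ℝ, ∫⁻ x : Eu n, ‖cv k u (t, x)‖ₑ ^ 2 < ∞ := by
    have hm : Measurable fun z : ST n => ‖cv k u z‖ₑ ^ 2 := hvm.measurable.enorm.pow_const _
    rw [Measure.volume_eq_prod, lintegral_prod _ hm.aemeasurable] at hv2
    exact ae_lt_top (Measurable.lintegral_prod_right' hm) hv2.ne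
  have hus1 : ∀ᵐ s : ℝ, Integrable fun x : Eu n => u (s, x) := by
    have : Integrable u ((volume : Measure ℝ).prod (volume : Measure (Eu n))) := hu
    exact this.prod_right_ae
  have hus2 : ∀ᵐ s : ℝ, ∫⁻ x : Eu n, ‖u (s, x)‖ₑ ^ 2 < ∞ := by
    have hm : Measurable fun z : ST n => ‖u z‖ₑ ^ 2 := hue.pow_const _
    have h2 : ∫⁻ z, ‖u z‖ₑ ^ 2 < ∞ := by
      rw [← eLpNorm_two_sq]
      exact ENNReal.pow_lt_top hu2.2
    rw [Measure.volume_eq_prod, lintegral_prod _ hm.aemeasurable] at h2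
    exact ae_lt_top (Measurable.lintegral_prod_right' hm) h2.ne
  -- the Fourier transform of `u` in space
  obtain ⟨U, hUd⟩ : ∃ U : ℝ → Eu n → ℂ, ∀ s ξ, U s ξ = 𝓕 (fun y : Eu n => (u (s, y) : ℂ)) ξ :=
    ⟨_, fun _ _ => rfl⟩
  have hU : Measurable fun p : ℝ × Eu n => ‖U p.1 p.2‖ₑ := by
    have h1 : StronglyMeasurable (fun p : (ℝ × Eu n) × Eu n =>
        ((Real.fourierChar (-inner ℝ p.2 p.1.2) : Circle) : ℂ) * (u (p.1.1, p.2) : ℂ)) := by
      refine StronglyMeasurable.mul ?_ ?_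
      · apply Continuous.stronglyMeasurable
        exact continuous_subtype_val.comp (Real.continuous_fourierChar.comp
          (continuous_snd.inner (continuous_snd.comp continuous_fst)).neg)
      · exact Complex.continuous_ofReal.comp_stronglyMeasurable (hum.comp_measurable
          ((measurable_fst.comp measurable_fst).prodMk measurable_snd))
    have h2 := (h1.integral_prod_right' (ν := (volume : Measure (Eu n)))).measurable.enorm
    have e : (fun p : ℝ × Eu n => ‖U p.1 p.2‖ₑ) = fun x : ℝ × Eu n =>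
        ‖∫ y : Eu n, ((Real.fourierChar (-inner ℝ y x.2) : Circle) : ℂ) * (u (x.1, y) : ℂ)‖ₑ := by
      funext p
      rw [hUd]
      rfl
    rw [e]
    exact h2
  have hUξ : ∀ ξ, Measurable fun s => ‖U s ξ‖ₑ := fun ξ =>
    hU.comp (measurable_id.prodMk measurable_const)
  have hBξ : ∀ ξ, Measurable fun r => B r ξ := fun ξ =>
    hB.comp (measurable_id.prodMk measurable_const)
  have planch : ∀ (w : Eu n → ℝ), Integrable w → StronglyMeasurable w → ∫⁻ x, ‖w x‖ₑ ^ 2 < ∞ →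
      ∫⁻ ξ, ‖𝓕 (fun x : Eu n => (w x : ℂ)) ξ‖ₑ ^ 2 = ∫⁻ x, ‖w x‖ₑ ^ 2 := by
    intro w hw hwm hw2
    have hm2 : MemLp (fun x : Eu n => (w x : ℂ)) 2 volume := by
      refine ⟨(Complex.continuous_ofReal.comp_stronglyMeasurable hwm).aestronglyMeasurable, ?_⟩
      have : eLpNorm (fun x : Eu n => (w x : ℂ)) 2 volume ^ 2 < ∞ := by
        rw [eLpNorm_two_sq]
        simpa only [enorm_ofReal'] using hw2
      by_contra hcon
      rw [not_lt, top_le_iff] at hcon
      rw [hcon] at this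
      simp at this
    have e : ∫⁻ ξ, ‖𝓕 (fun x : Eu n => (w x : ℂ)) ξ‖ₑ ^ 2 =
        eLpNorm (𝓕 (fun x : Eu n => (w x : ℂ))) 2 volume ^ 2 := (eLpNorm_two_sq _ _).symm
    rw [e, plancherel (fun x : Eu n => (w x : ℂ)) hw.ofReal hm2, eLpNorm_two_sq]
    simp only [enorm_ofReal']
  -- pointwise bound for the Fourier transform of the convolution
  have hslice := integrable_slice k u hk hu
  have hbd : ∀ᵐ t : ℝ, ∀ ξ : Eu n, ‖𝓕 (fun x : Eu n => (cv k u (t, x) : ℂ)) ξ‖ₑ ≤
      ∫⁻ s, B (t - s) ξ * ‖U s ξ‖ₑ := by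
    filter_upwards [hslice] with t ht ξ
    rw [fourier_cv k u t ht ξ]
    simp only [← hUd]
    refine (enorm_integral_le_lintegral_enorm _).trans ?_
    have hb2 : ∀ᵐ s : ℝ, ∀ ξ : Eu n,
        ‖𝓕 (fun x : Eu n => (k (t - s, x) : ℂ)) ξ‖ₑ ≤ B (t - s) ξ :=
      (quasiMeasurePreserving_sub_left volume t).ae hbound
    refine lintegral_mono_ae ?_
    filter_upwards [hb2] with s hs
    rw [enorm_mul]
    gcongr
    exact hs ξ
  -- final computation
  have hmain : ∫⁻ z, ‖cv k u z‖ₑ ^ 2 ≤ A ^ 2 * ∫⁻ z, ‖u z‖ₑ ^ 2 := by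
    have hm : Measurable fun z : ST n => ‖cv k u z‖ₑ ^ 2 := hvm.measurable.enorm.pow_const _
    have hmu : Measurable fun z : ST n => ‖u z‖ₑ ^ 2 := hue.pow_const _
    have hBU : Measurable fun p : (ℝ × Eu n) × ℝ => B (p.1.1 - p.2) p.1.2 * ‖U p.2 p.1.2‖ₑ := by
      refine Measurable.mul ?_ ?_
      · exact hB.comp (((measurable_fst.comp measurable_fst).sub measurable_snd).prodMk
          (measurable_snd.comp measurable_fst))
      · exact hU.comp (measurable_snd.prodMk (measurable_snd.comp measurable_fst))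
    have hJ : Measurable fun p : ℝ × Eu n =>
        (∫⁻ s, B (p.1 - s) p.2 * ‖U s p.2‖ₑ) ^ 2 :=
      (Measurable.lintegral_prod_right' hBU).pow_const _
    calc ∫⁻ z, ‖cv k u z‖ₑ ^ 2 = ∫⁻ t : ℝ, ∫⁻ x : Eu n, ‖cv k u (t, x)‖ₑ ^ 2 := by
          rw [Measure.volume_eq_prod, lintegral_prod _ hm.aemeasurable]
      _ = ∫⁻ t : ℝ, ∫⁻ ξ : Eu n, ‖𝓕 (fun x : Eu n => (cv k u (t, x) : ℂ)) ξ‖ₑ ^ 2 := by
          refine lintegral_congr_ae ?_
          filter_upwards [hs1, hs2] with t ht1 ht2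
          exact (planch _ ht1 (hvm.comp_measurable measurable_prodMk_left) ht2).symm
      _ ≤ ∫⁻ t : ℝ, ∫⁻ ξ : Eu n, (∫⁻ s, B (t - s) ξ * ‖U s ξ‖ₑ) ^ 2 := by
          refine lintegral_mono_ae ?_
          filter_upwards [hbd] with t ht
          refine lintegral_mono fun ξ => ?_
          gcongr
          exact ht ξ
      _ = ∫⁻ ξ : Eu n, ∫⁻ t : ℝ, (∫⁻ s, B (t - s) ξ * ‖U s ξ‖ₑ) ^ 2 :=
          lintegral_lintegral_swap (f := fun t ξ => (∫⁻ s, B (t - s) ξ * ‖U s ξ‖ₑ) ^ 2)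
            hJ.aemeasurable
      _ ≤ ∫⁻ ξ : Eu n, A ^ 2 * ∫⁻ s, ‖U s ξ‖ₑ ^ 2 := by
          refine lintegral_mono fun ξ => ?_
          refine (young volume (fun r => B r ξ) (fun s => ‖U s ξ‖ₑ)
            (hBξ ξ) (hUξ ξ)).trans ?_
          gcongr
          exact hA ξ
      _ = A ^ 2 * ∫⁻ ξ : Eu n, ∫⁻ s, ‖U s ξ‖ₑ ^ 2 := by
          rw [lintegral_const_mul]
          exact Measurable.lintegral_prod_left' (hU.pow_const 2)
      _ = A ^ 2 * ∫⁻ s : ℝ, ∫⁻ ξ : Eu n, ‖U s ξ‖ₑ ^ 2 := by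
          congr 1
          exact lintegral_lintegral_swap (f := fun ξ s => ‖U s ξ‖ₑ ^ 2)
            ((hU.pow_const 2).comp measurable_swap).aemeasurable
      _ = A ^ 2 * ∫⁻ s : ℝ, ∫⁻ x : Eu n, ‖u (s, x)‖ₑ ^ 2 := by
          congr 1
          refine lintegral_congr_ae ?_
          filter_upwards [hus1, hus2] with s h1 h2
          simp only [hUd]
          exact planch _ h1 (hum.comp_measurable measurable_prodMk_left) h2
      _ = A ^ 2 * ∫⁻ z, ‖u z‖ₑ ^ 2 := by
          rw [Measure.volume_eq_prod, lintegral_prod _ hmu.aemeasurable]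
  rw [← eLpNorm_two_sq, ← eLpNorm_two_sq, ← mul_pow] at hmain
  exact (ENNReal.pow_le_pow_left_iff (by norm_num)).mp hmain

/-- The multiplier lemma. -/
theorem mult_lemma (k : ST n → ℝ) (hk : Integrable k)
    (B : ℝ → Eu n → ℝ≥0∞) (hB : Measurable (Function.uncurry B))
    (hbound : ∀ᵐ r : ℝ, ∀ ξ : Eu n, ‖𝓕 (fun x : Eu n => (k (r, x) : ℂ)) ξ‖ₑ ≤ B r ξ)
    (A : ℝ≥0∞) (hA : ∀ ξ, ∫⁻ r, B r ξ ≤ A)
    (u : ST n → ℝ) (hu : Integrable u) (hu2 : MemLp u 2) :
    eLpNorm (cv k u) 2 volume ≤ A * eLpNorm u 2 volume := by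
  obtain ⟨k', hk'm, hkk'⟩ := hk.1
  obtain ⟨u', hu'm, huu'⟩ := hu.1
  have hcv : cv k u = cv k' u' := by
    funext z
    refine integral_congr_ae ?_
    have h1 : ∀ᵐ y : ST n, k (z - y) = k' (z - y) :=
      (quasiMeasurePreserving_sub_left volume z).ae hkk'
    filter_upwards [h1, huu'] with y h1 h2
    rw [h1, h2]
  have hbound' : ∀ᵐ r : ℝ, ∀ ξ : Eu n, ‖𝓕 (fun x : Eu n => (k' (r, x) : ℂ)) ξ‖ₑ ≤ B r ξ := by
    have h1 : ∀ᵐ r : ℝ, ∀ᵐ x : Eu n, k (r, x) = k' (r, x) := by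
      have : ∀ᵐ z ∂((volume : Measure ℝ).prod (volume : Measure (Eu n))), k z = k' z := hkk'
      exact Measure.ae_ae_of_ae_prod this
    filter_upwards [h1, hbound] with r h1 h2 ξ
    refine le_trans (le_of_eq ?_) (h2 ξ)
    congr 1
    apply Real.fourier_congr_ae
    filter_upwards [h1] with x hx
    rw [hx]
  rw [hcv, eLpNorm_congr_ae huu']
  exact mult_aux k' (hk.congr hkk') hk'm B hB hbound' A hA u' (hu.congr huu') hu'm
    ((memLp_congr_ae huu').mp hu2)

end Pool.Agent.Helper76.Jef
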