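import Pool.Agent.Helper76.Jef.Gauss
import Pool.Agent.Helper76.Jef.Mult

/-! # `L²` bounds for the two singular kernels -/

open MeasureTheory Set Filter Topology
open scoped ENNReal FourierTransform Interval

namespace Pool.Agent.Helper76.Jef

open Pool.Agent.Helper42.Jef

variable {n : ℕ}

/-! ### a measurable extension of `(s, x) ↦ pds l (Gs s) x` -/

/-- measurable extension of `(s, x) ↦ pds l (Gs s) x` -/
noncomputable def Qs (l : List (Fin n)) (p : ℝ × Eu n) : ℝ :=
  (p.1 ^ (-(1 / 2) : ℝ)) ^ (n + l.length) * pds l (Gs 1) ((p.1 ^ (-(1 / 2) : ℝ)) • p.2)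

theorem Qs_eq {s : ℝ} (hs : 0 < s) (l : List (Fin n)) (x : Eu n) :
    pds l (Gs s) x = Qs l (s, x) := pds_Gs_scale hs l x

theorem Qs_meas (l : List (Fin n)) : Measurable (Qs l) := by
  have h1 : Measurable fun p : ℝ × Eu n => p.1 ^ (-(1 / 2) : ℝ) :=
    measurable_fst.pow_const _
  have h2 : Measurable (pds l (Gs (n := n) 1)) := (isS_pds (isS_Gs one_pos) l).continuous.measurable
  exact (h1.pow_const _).mul (h2.comp (h1.smul measurable_snd))

theorem lintegral_Qs {s : ℝ} (hs : 0 < s) (l : List (Fin n)) :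
    ∫⁻ x, ‖Qs l (s, x)‖ₑ =
      ENNReal.ofReal ((s ^ (-(1 / 2) : ℝ)) ^ l.length) * ∫⁻ x, ‖pds l (Gs (n := n) 1) x‖ₑ := by
  set c : ℝ := s ^ (-(1 / 2) : ℝ) with hc
  have hc0 : 0 < c := Real.rpow_pos_of_pos hs _
  have h1 : ∀ x, ‖Qs l (s, x)‖ₑ =
      ENNReal.ofReal (c ^ (n + l.length)) * ‖pds l (Gs (n := n) 1) (c • x)‖ₑ := by
    intro x
    unfold Qs
    rw [enorm_mul]
    congr 1
    rw [Real.enorm_eq_ofReal (by positivity)]
  simp_rw [h1]
  have hm : Measurable (pds l (Gs (n := n) 1)) :=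
    (isS_pds (isS_Gs one_pos) l).continuous.measurable
  rw [lintegral_const_mul _ (by fun_prop)]
  have h2 : ∫⁻ x : Eu n, ‖pds l (Gs (n := n) 1) (c • x)‖ₑ =
      ENNReal.ofReal ((c ^ n)⁻¹) * ∫⁻ x, ‖pds l (Gs (n := n) 1) x‖ₑ := by
    have h3 := lintegral_map (μ := (volume : Measure (Eu n)))
      (f := fun x => ‖pds l (Gs (n := n) 1) x‖ₑ) (g := fun x : Eu n => c • x)
      (by fun_prop) (by fun_prop)
    rw [← h3, Measure.map_addHaar_smul _ hc0.ne', lintegral_smul_measure]
    simp [abs_of_pos hc0]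
  rw [h2, ← mul_assoc, ← ENNReal.ofReal_mul (by positivity)]
  congr 2
  rw [pow_add]
  field_simp

/-! ### the Fourier transform of a time slice -/

/-- time slice of the kernels -/
noncomputable def slice (μ ε w r : ℝ) (l : List (Fin n)) (x : Eu n) : ℝ :=
  ∫ s in ε..1, w * pds l (Gs (μ * r + s)) x

theorem fourier_slice {μ ε : ℝ} (hμ : 0 < μ) (hε : 0 < ε) (hε1 : ε < 1) (w : ℝ) {r : ℝ}
    (hr : 0 ≤ r) (l : List (Fin n)) (ξ : Eu n) :
    ‖𝓕 (fun x : Eu n => ((slice μ ε w r l x : ℝ) : ℂ)) ξ‖ ≤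
      |w| * ∫ s in ε..1, (2 * Real.pi * ‖ξ‖) ^ l.length *
        Real.exp (-((2 * Real.pi * ‖ξ‖) ^ 2 * (μ * r + s))) := by
  have hpos : ∀ s ∈ Ioc ε 1, 0 < μ * r + s := fun s hs => by
    have : 0 ≤ μ * r := by positivity
    linarith [hs.1]
  have h1 : (fun x : Eu n => ((slice μ ε w r l x : ℝ) : ℂ)) =
      fun x => ∫ s in Ioc ε 1, ((w * Qs l (μ * r + s, x) : ℝ) : ℂ) := by
    funext x
    unfold slice
    rw [intervalIntegral.integral_of_le hε1.le, ← integral_complex_ofReal]
    refine setIntegral_congr_fun measurableSet_Ioc fun s hs => ?_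
    rw [Qs_eq (hpos s hs)]
  have hchar : Continuous fun x : Eu n => ((Real.fourierChar (-inner ℝ x ξ) : Circle) : ℂ) :=
    continuous_subtype_val.comp (Real.continuous_fourierChar.comp (by fun_prop))
  -- integrability
  have hmeas : Measurable fun p : Eu n × ℝ => Qs l (μ * r + p.2, p.1) :=
    (Qs_meas l).comp ((by fun_prop : Measurable fun p : Eu n × ℝ => (μ * r + p.2, p.1)))
  have hM : ∫⁻ x, ‖pds l (Gs (n := n) 1) x‖ₑ < ∞ :=
    (isS_pds (isS_Gs one_pos) l).integrable.2
  have hint : Integrable (fun p : Eu n × ℝ => ((Real.fourierChar (-inner ℝ p.1 ξ) : Circle) : ℂ) *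
      ((w * Qs l (μ * r + p.2, p.1) : ℝ) : ℂ))
      ((volume : Measure (Eu n)).prod (volume.restrict (Ioc ε 1))) := by
    constructor
    · refine AEStronglyMeasurable.mul ?_ ?_
      · exact (hchar.comp continuous_fst).aestronglyMeasurable
      · exact (Complex.measurable_ofReal.comp (hmeas.const_mul w)).aestronglyMeasurable
    · show ∫⁻ p, _ ∂_ < ∞
      have h2 : ∀ p : Eu n × ℝ, ‖((Real.fourierChar (-inner ℝ p.1 ξ) : Circle) : ℂ) *
          ((w * Qs l (μ * r + p.2, p.1) : ℝ) : ℂ)‖ₑ = ‖w‖ₑ * ‖Qs l (μ * r + p.2, p.1)‖ₑ := by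
        intro p
        rw [enorm_mul, enorm_ofReal', enorm_mul]
        have : ‖((Real.fourierChar (-inner ℝ p.1 ξ) : Circle) : ℂ)‖ₑ = 1 := by
          rw [← ofReal_norm, Circle.norm_coe, ENNReal.ofReal_one]
        rw [this, one_mul]
      simp_rw [h2]
      rw [lintegral_prod_symm _ (by
        exact ((hmeas.enorm).const_mul _).aemeasurable)]
      have h3 : ∀ s ∈ Ioc ε 1, ∫⁻ x : Eu n, ‖w‖ₑ * ‖Qs l (μ * r + s, x)‖ₑ ≤
          ‖w‖ₑ * (ENNReal.ofReal ((ε ^ (-(1 / 2) : ℝ)) ^ l.length) *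
            ∫⁻ x, ‖pds l (Gs (n := n) 1) x‖ₑ) := by
        intro s hs
        have hm2 : Measurable fun x : Eu n => ‖Qs l (μ * r + s, x)‖ₑ :=
          ((Qs_meas l).comp (by fun_prop : Measurable fun x : Eu n => (μ * r + s, x))).enorm
        rw [lintegral_const_mul _ hm2, lintegral_Qs (hpos s hs)]
        gcongr ‖w‖ₑ * (ENNReal.ofReal (?_ ^ _) * _)
        · exact (Real.rpow_pos_of_pos (hpos s hs) _).le
        · refine Real.rpow_le_rpow_of_nonpos hε ?_ (by norm_num)
          have : 0 ≤ μ * r := by positivity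
          linarith [hs.1]
      refine (setLIntegral_mono measurable_const h3).trans_lt ?_
      rw [setLIntegral_const]
      refine ENNReal.mul_lt_top (ENNReal.mul_lt_top (by simp) (ENNReal.mul_lt_top (by simp) hM))
        (by simp)
  have h4 : 𝓕 (fun x : Eu n => ((slice μ ε w r l x : ℝ) : ℂ)) ξ =
      ∫ s in Ioc ε 1, (w : ℂ) * 𝓕 (fun x : Eu n => ((pds l (Gs (μ * r + s)) x : ℝ) : ℂ)) ξ := by
    rw [h1, Real.fourier_eq]
    have h5 : ∀ x : Eu n, (Real.fourierChar (-inner ℝ x ξ)) •
        (∫ s in Ioc ε 1, ((w * Qs l (μ * r + s, x) : ℝ) : ℂ)) =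
        ∫ s in Ioc ε 1, ((Real.fourierChar (-inner ℝ x ξ) : Circle) : ℂ) *
          ((w * Qs l (μ * r + s, x) : ℝ) : ℂ) := by
      intro x
      rw [integral_const_mul]
      rfl
    simp_rw [h5]
    rw [integral_integral_swap hint]
    refine setIntegral_congr_fun measurableSet_Ioc fun s hs => ?_
    rw [Real.fourier_eq, ← integral_const_mul]
    refine integral_congr_ae (ae_of_all _ fun x => ?_)
    simp only
    rw [Qs_eq (hpos s hs), Circle.smul_def, smul_eq_mul, Complex.ofReal_mul]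
    ring
  rw [h4, intervalIntegral.integral_of_le hε1.le, ← integral_const_mul]
  refine norm_integral_le_of_norm_le ?_ ?_
  · have hc : Continuous fun s : ℝ => |w| * ((2 * Real.pi * ‖ξ‖) ^ l.length *
        Real.exp (-((2 * Real.pi * ‖ξ‖) ^ 2 * (μ * r + s)))) := by fun_prop
    exact (hc.integrableOn_Icc (a := ε) (b := 1)).mono_set Ioc_subset_Icc_self
  · filter_upwards [ae_restrict_mem measurableSet_Ioc] with s hs
    rw [norm_mul, Complex.norm_real, Real.norm_eq_abs]
    gcongr
    exact fourier_pds_Gs (hpos s hs) l ξ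

theorem exp_int {μ ε : ℝ} (hε : 0 < ε) {q : ℝ} (hq : 0 ≤ q) (r : ℝ) :
    ∫ s in ε..1, q * Real.exp (-(q * (μ * r + s))) ≤ Real.exp (-(q * (μ * r))) := by
  have h1 : ∀ s ∈ uIcc ε 1, HasDerivAt (fun s => -Real.exp (-(q * (μ * r + s))))
      (q * Real.exp (-(q * (μ * r + s)))) s := by
    intro s _
    have h2 : HasDerivAt (fun s => -(q * (μ * r + s))) (-(q * 1)) s :=
      (((hasDerivAt_id s).const_add (μ * r)).const_mul q).neg
    have h3 : HasDerivAt (fun s => -Real.exp (-(q * (μ * r + s))))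
      (-(Real.exp (-(q * (μ * r + s))) * (-(q * 1)))) s := h2.exp.neg
    have h4 : -(Real.exp (-(q * (μ * r + s))) * (-(q * 1))) =
      q * Real.exp (-(q * (μ * r + s))) := by ring
    rwa [h4] at h3
  rw [intervalIntegral.integral_eq_sub_of_hasDerivAt h1 (by
    apply Continuous.intervalIntegrable; fun_prop)]
  have h4 : Real.exp (-(q * (μ * r + ε))) ≤ Real.exp (-(q * (μ * r))) := by
    apply Real.exp_le_exp.mpr
    nlinarith [mul_nonneg hq hε.le]
  have h5 := Real.exp_pos (-(q * (μ * r + 1)))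
  linarith

/-! ### the cut-off in time -/

theorem deriv_st_nonneg {ε : ℝ} (hε : 0 < ε) (r : ℝ) :
    0 ≤ deriv (fun r => Real.smoothTransition (r / ε)) r := by
  apply Monotone.deriv_nonneg
  intro a b hab
  exact Real.smoothTransition.monotone (by gcongr)

theorem deriv_st_of_nonpos {ε : ℝ} (hε : 0 < ε) {r : ℝ} (hr : r ≤ 0) :
    deriv (fun r => Real.smoothTransition (r / ε)) r = 0 := by
  apply IsLocalMin.deriv_eq_zero
  refine Filter.Eventually.of_forall fun y => ?_
  simp only
  rw [Real.smoothTransition.zero_of_nonpos (div_nonpos_of_nonpos_of_nonneg hr hε.le)]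
  exact Real.smoothTransition.nonneg _

theorem deriv_st_of_ge {ε : ℝ} (hε : 0 < ε) {r : ℝ} (hr : ε ≤ r) :
    deriv (fun r => Real.smoothTransition (r / ε)) r = 0 := by
  apply IsLocalMax.deriv_eq_zero
  refine Filter.Eventually.of_forall fun y => ?_
  simp only
  rw [Real.smoothTransition.one_of_one_le ((one_le_div hε).mpr hr)]
  exact Real.smoothTransition.le_one _

theorem contDiff_st (ε : ℝ) : ContDiff ℝ (⊤ : ℕ∞) (fun r => Real.smoothTransition (r / ε)) :=
  Real.smoothTransition.contDiff.comp (contDiff_id.div_const ε)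

theorem continuous_deriv_st (ε : ℝ) :
    Continuous (deriv (fun r => Real.smoothTransition (r / ε))) :=
  (contDiff_st ε).continuous_deriv (by simp)

theorem lintegral_deriv_st {ε : ℝ} (hε : 0 < ε) :
    ∫⁻ r, ENNReal.ofReal (deriv (fun r => Real.smoothTransition (r / ε)) r) ≤ 1 := by
  have h1 : ∫⁻ r, ENNReal.ofReal (deriv (fun r => Real.smoothTransition (r / ε)) r) =
      ∫⁻ r in Ioc 0 ε, ENNReal.ofReal (deriv (fun r => Real.smoothTransition (r / ε)) r) := by
    rw [← lintegral_indicator measurableSet_Ioc]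
    congr 1
    funext r
    by_cases hr : r ∈ Ioc 0 ε
    · rw [indicator_of_mem hr]
    · rw [indicator_of_notMem hr]
      have : r ≤ 0 ∨ ε ≤ r := by
        by_contra h
        push Not at h
        exact hr ⟨h.1, h.2.le⟩
      rcases this with h | h
      · rw [deriv_st_of_nonpos hε h, ENNReal.ofReal_zero]
      · rw [deriv_st_of_ge hε h, ENNReal.ofReal_zero]
  rw [h1, ← ofReal_integral_eq_lintegral_ofReal]
  · rw [← intervalIntegral.integral_of_le hε.le,
      intervalIntegral.integral_deriv_eq_sub' (fun r => Real.smoothTransition (r / ε)) rfl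
      (fun x _ => ((contDiff_st ε).differentiable (by simp)).differentiableAt)
      (continuous_deriv_st ε).continuousOn]
    simp [div_self hε.ne']
  · exact ((continuous_deriv_st ε).integrableOn_Icc (a := 0) (b := ε)).mono_set Ioc_subset_Icc_self
  · exact ae_of_all _ fun r => deriv_st_nonneg hε r

/-! ### the two kernels -/

theorem fourier_zero' (ξ : Eu n) : 𝓕 (fun _ : Eu n => ((0 : ℝ) : ℂ)) ξ = 0 := by
  rw [Real.fourier_eq]
  simp

theorem kernel_main_l2 {μ ε : ℝ} (hμ : 0 < μ) (hε : 0 < ε) (hε1 : ε < 1)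
    (l : List (Fin n)) (hl : l.length = 4)
    (hint : Integrable (fun z : ST n => ∫ s in ε..1, Kr μ ε s l z))
    (u : ST n → ℝ) (hu : Integrable u) (hu2 : MemLp u 2) :
    eLpNorm (cv (fun z => ∫ s in ε..1, Kr μ ε s l z) u) 2 volume
      ≤ ENNReal.ofReal (1 / μ) * eLpNorm u 2 volume := by
  let B : ℝ → Eu n → ℝ≥0∞ := fun r ξ => (Ioi (0 : ℝ)).indicator (fun r =>
    ENNReal.ofReal ((2 * Real.pi * ‖ξ‖) ^ 2 *
      Real.exp (-((2 * Real.pi * ‖ξ‖) ^ 2 * (μ * r))))) r
  have hB : Measurable (Function.uncurry B) := by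
    have h1 : Function.uncurry B = (Ioi (0 : ℝ) ×ˢ (univ : Set (Eu n))).indicator (fun p =>
        ENNReal.ofReal ((2 * Real.pi * ‖p.2‖) ^ 2 *
          Real.exp (-((2 * Real.pi * ‖p.2‖) ^ 2 * (μ * p.1))))) := by
      funext p
      by_cases hp : p.1 ∈ Ioi (0 : ℝ)
      · have : p ∈ Ioi (0 : ℝ) ×ˢ (univ : Set (Eu n)) := ⟨hp, trivial⟩
        rw [indicator_of_mem this]
        simp only [Function.uncurry, B]
        rw [indicator_of_mem hp]
      · have : p ∉ Ioi (0 : ℝ) ×ˢ (univ : Set (Eu n)) := fun h => hp h.1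
        rw [indicator_of_notMem this]
        simp only [Function.uncurry, B]
        rw [indicator_of_notMem hp]
    rw [h1]
    refine Measurable.indicator ?_ (measurableSet_Ioi.prod MeasurableSet.univ)
    fun_prop
  refine mult_lemma _ hint B hB (ae_of_all _ fun r ξ => ?_) _ (fun ξ => ?_) u hu hu2
  · by_cases hr : 0 < r
    · simp only [B]
      rw [indicator_of_mem (show r ∈ Ioi (0 : ℝ) from hr)]
      have h1 := fourier_slice hμ hε hε1 (Real.smoothTransition (r / ε)) hr.le l ξ
      have h2 : (fun x : Eu n => ((∫ s in ε..1, Kr μ ε s l (r, x) : ℝ) : ℂ)) =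
          fun x => ((slice μ ε (Real.smoothTransition (r / ε)) r l x : ℝ) : ℂ) := rfl
      rw [h2, ← ofReal_norm]
      refine ENNReal.ofReal_le_ofReal (h1.trans ?_)
      have h3 : |Real.smoothTransition (r / ε)| ≤ 1 := by
        rw [abs_of_nonneg (Real.smoothTransition.nonneg _)]
        exact Real.smoothTransition.le_one _
      set q : ℝ := (2 * Real.pi * ‖ξ‖) ^ 2 with hq
      have hq0 : 0 ≤ q := by positivity
      have h4 : (2 * Real.pi * ‖ξ‖) ^ l.length = q * q := by rw [hl, hq]; ring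
      simp_rw [h4, mul_assoc q q]
      rw [intervalIntegral.integral_const_mul]
      have h5 := exp_int (μ := μ) hε hq0 r
      calc |Real.smoothTransition (r / ε)| *
          (q * ∫ s in ε..1, q * Real.exp (-(q * (μ * r + s))))
          ≤ 1 * (q * Real.exp (-(q * (μ * r)))) := by
            gcongr
            · refine mul_nonneg hq0 (intervalIntegral.integral_nonneg hε1.le fun s _ => ?_)
              positivity
        _ = _ := one_mul _
    · have h1 : (fun x : Eu n => ((∫ s in ε..1, Kr μ ε s l (r, x) : ℝ) : ℂ)) =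
          fun _ => ((0 : ℝ) : ℂ) := by
        funext x
        congr 1
        have h2 : ∀ s, Kr μ ε s l (r, x) = 0 := fun s => by
          unfold Kr
          simp only
          rw [Real.smoothTransition.zero_of_nonpos
            (div_nonpos_of_nonpos_of_nonneg (not_lt.mp hr) hε.le), zero_mul]
        simp [h2]
      rw [h1, fourier_zero']
      simp
  · set q : ℝ := (2 * Real.pi * ‖ξ‖) ^ 2 with hq
    have hq0 : 0 ≤ q := by positivity
    have h1 : ∫⁻ r, B r ξ = ∫⁻ r in Ioi (0 : ℝ),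
        ENNReal.ofReal (q * Real.exp (-(q * (μ * r)))) := by
      rw [← lintegral_indicator measurableSet_Ioi]
    rw [h1]
    rcases hq0.eq_or_lt with h | h
    · rw [← h]
      simp
    · have h2 : ∀ r, q * Real.exp (-(q * (μ * r))) = q * Real.exp (-(q * μ) * r) := fun r => by
        congr 2; ring
      simp_rw [h2]
      have hneg : -(q * μ) < 0 := by
        have := mul_pos h hμ
        linarith
      rw [← ofReal_integral_eq_lintegral_ofReal]
      · rw [integral_const_mul, integral_exp_mul_Ioi hneg]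
        apply ENNReal.ofReal_le_ofReal
        simp
        rw [mul_comm μ⁻¹ q⁻¹, ← mul_assoc, mul_inv_cancel₀ h.ne', one_mul]
      · exact (integrableOn_exp_mul_Ioi hneg 0).const_mul q
      · exact ae_of_all _ fun r => by positivity

theorem kernel_ell_l2 {μ ε : ℝ} (hμ : 0 < μ) (hε : 0 < ε) (hε1 : ε < 1)
    (l : List (Fin n)) (hl : l.length = 2)
    (hint : Integrable (fun z : ST n => ∫ s in ε..1, Kp μ ε s l z))
    (u : ST n → ℝ) (hu : Integrable u) (hu2 : MemLp u 2) :
    eLpNorm (cv (fun z => ∫ s in ε..1, Kp μ ε s l z) u) 2 volume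
      ≤ ENNReal.ofReal 1 * eLpNorm u 2 volume := by
  let B : ℝ → Eu n → ℝ≥0∞ := fun r _ =>
    ENNReal.ofReal (deriv (fun r => Real.smoothTransition (r / ε)) r)
  have hB : Measurable (Function.uncurry B) := by
    have := (continuous_deriv_st ε).measurable
    exact (this.comp measurable_fst).ennreal_ofReal
  refine mult_lemma _ hint B hB (ae_of_all _ fun r ξ => ?_) _ (fun ξ => ?_) u hu hu2
  · by_cases hr : 0 < r
    · simp only [B]
      have h1 := fourier_slice hμ hε hε1 (deriv (fun r => Real.smoothTransition (r / ε)) r)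
        hr.le l ξ
      have h2 : (fun x : Eu n => ((∫ s in ε..1, Kp μ ε s l (r, x) : ℝ) : ℂ)) =
          fun x => ((slice μ ε (deriv (fun r => Real.smoothTransition (r / ε)) r) r l x : ℝ) : ℂ) :=
        rfl
      rw [h2, ← ofReal_norm]
      refine ENNReal.ofReal_le_ofReal (h1.trans ?_)
      rw [abs_of_nonneg (deriv_st_nonneg hε r)]
      set q : ℝ := (2 * Real.pi * ‖ξ‖) ^ 2 with hq
      have hq0 : 0 ≤ q := by positivity
      rw [hl]
      have h5 := exp_int (μ := μ) hε hq0 r
      have h6 : Real.exp (-(q * (μ * r))) ≤ 1 := by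
        rw [Real.exp_le_one_iff]
        have : 0 ≤ q * (μ * r) := by positivity
        linarith
      have h7 := deriv_st_nonneg hε r
      calc deriv (fun r => Real.smoothTransition (r / ε)) r *
          (∫ s in ε..1, q * Real.exp (-(q * (μ * r + s))))
          ≤ deriv (fun r => Real.smoothTransition (r / ε)) r * 1 := by
            gcongr
            exact h5.trans h6
        _ = _ := mul_one _
    · have h1 : (fun x : Eu n => ((∫ s in ε..1, Kp μ ε s l (r, x) : ℝ) : ℂ)) =
          fun _ => ((0 : ℝ) : ℂ) := by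
        funext x
        congr 1
        have h2 : ∀ s, Kp μ ε s l (r, x) = 0 := fun s => by
          unfold Kp
          simp only
          rw [deriv_st_of_nonpos hε (not_lt.mp hr), zero_mul]
        simp [h2]
      rw [h1, fourier_zero']
      simp
  · simpa [B] using lintegral_deriv_st hε

end Pool.Agent.Helper76.Jef
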