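import Pool.Agent.Helper42.Jef.RegK

/-! # Stability of the transport equation under weak/strong limits (module P2) -/

open MeasureTheory Set Filter Topology
open scoped ENNReal NNReal ContDiff

namespace Pool.Agent.Helper76.Jef

open Pool.Agent.Helper42.Jef

variable {n : ℕ}

theorem te_limit {E : Type*} [NormedAddCommGroup E] [InnerProductSpace ℝ E]
    [FiniteDimensional ℝ E] [MeasurableSpace E] [BorelSpace E] {T : ℝ}
    {vs : ℕ → ST n → Eu n} {v : ST n → Eu n}
    (hvs : ∀ m, MemLp (vs m) 2 volume) (hv : MemLp v 2 volume)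
    (hs : Tendsto (fun m => eLpNorm (fun z => vs m z - v z) 2 volume) atTop (𝓝 0))
    {us Fs : ℕ → ST n → E} {u F : ST n → E} (hu : WC volume us u) (hF : WC volume Fs F)
    (h : ∀ m, TE T (vs m) (us m) (Fs m)) : TE T v u F := by
  intro η ψ hη hψ
  obtain ⟨h1, h2, h3⟩ := strong_D hvs hv hs hη.cont hη.cpt hψ.smooth hψ.cpt
  have m1 : MemLp (fun z : ST n => deriv η z.1 * ψ z.2) 2 volume :=
    memLp_test (E := ℝ) hη.dcont hη.cpt.deriv hψ.smooth.continuous hψ.cpt
  have m3 : MemLp (fun z : ST n => η z.1 * ψ z.2) 2 volume :=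
    memLp_test (E := ℝ) hη.cont hη.cpt hψ.smooth.continuous hψ.cpt
  -- the scalar coefficient
  have w1 : ∀ m, MemLp (fun z : ST n => deriv η z.1 * ψ z.2 + η z.1 * fderiv ℝ ψ z.2 (vs m z)) 2
      volume := fun m => m1.add (h1 m)
  have w2 : MemLp (fun z : ST n => deriv η z.1 * ψ z.2 + η z.1 * fderiv ℝ ψ z.2 (v z)) 2 volume :=
    m1.add h2
  have w3 : Tendsto (fun m => eLpNorm (fun z : ST n =>
      (deriv η z.1 * ψ z.2 + η z.1 * fderiv ℝ ψ z.2 (vs m z)) -
      (deriv η z.1 * ψ z.2 + η z.1 * fderiv ℝ ψ z.2 (v z))) 2 volume) atTop (𝓝 0) := by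
    refine h3.congr fun m => ?_
    congr 1
    funext z
    simp only [smul_eq_mul]
    ring
  let B : E →L[ℝ] ℝ →L[ℝ] E := (ContinuousLinearMap.lsmul ℝ ℝ).flip
  have hB : ∀ (x : E) (r : ℝ), B x r = r • x := fun x r => rfl
  have l1 := wc_bilin_strong hu w1 w2 w3 B
  have l2 := wc_bilin_fixed hF m3 B
  simp only [hB] at l1 l2
  have l3 := l1.add l2
  have e0 : ∀ m, (∫ z : ST n, (deriv η z.1 * ψ z.2 + η z.1 * fderiv ℝ ψ z.2 (vs m z)) • us m z) +
      ∫ z : ST n, (η z.1 * ψ z.2) • Fs m z = 0 := by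
    intro m
    rw [← integral_add (smul_int2 (w1 m) (hu.mem m)) (smul_int2 m3 (hF.mem m))]
    exact h m η ψ hη hψ
  have e1 : (∫ z : ST n, (deriv η z.1 * ψ z.2 + η z.1 * fderiv ℝ ψ z.2 (v z)) • u z) +
      ∫ z : ST n, (η z.1 * ψ z.2) • F z = 0 := by
    refine tendsto_nhds_unique l3 ?_
    simp only [e0]
    exact tendsto_const_nhds
  rw [integral_add (smul_int2 w2 hu.memU) (smul_int2 m3 hF.memU)]
  exact e1

theorem ext0_eq {E : Type*} [NormedAddCommGroup E] [NormedSpace ℝ E] (w0 : Eu n → E)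
    (u : ST n → E) (z : ST n) :
    ext0 w0 u z = (Ioo (-1 : ℝ) 0).indicator (fun _ => (1 : ℝ)) z.1 • w0 z.2 +
      (Ioo (-1 : ℝ) 0)ᶜ.indicator (fun _ => (1 : ℝ)) z.1 • u z := by
  unfold ext0
  by_cases hz : z.1 ∈ Ioo (-1 : ℝ) 0
  · rw [if_pos hz, indicator_of_mem hz, indicator_of_notMem (by simpa using hz)]
    simp
  · rw [if_neg hz, indicator_of_notMem hz, indicator_of_mem (by simpa using hz)]
    simp

theorem wc_ext0 {E : Type*} [NormedAddCommGroup E] [InnerProductSpace ℝ E]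
    [FiniteDimensional ℝ E] [MeasurableSpace E] [BorelSpace E] {us : ℕ → ST n → E} {U : ST n → E}
    (h : WC volume us U) {w0 : Eu n → E} (hw0 : MemLp w0 2 volume) :
    WC volume (fun m => ext0 w0 (us m)) (ext0 w0 U) := by
  have h1 : MemLp (fun z : ST n => (Ioo (-1 : ℝ) 0).indicator (fun _ => (1 : ℝ)) z.1 • w0 z.2) 2
      volume := by
    refine memLp_prod_smul ?_ hw0
    exact memLp_indicator_const 2 measurableSet_Ioo 1 (Or.inr (by simp))
  have h2 : WC volume (fun m (z : ST n) =>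
      (Ioo (-1 : ℝ) 0)ᶜ.indicator (fun _ => (1 : ℝ)) z.1 • us m z)
      (fun z => (Ioo (-1 : ℝ) 0)ᶜ.indicator (fun _ => (1 : ℝ)) z.1 • U z) := by
    refine wc_weight h (C := 1) ?_ fun z => ?_
    · exact ((measurable_const.indicator measurableSet_Ioo.compl).comp
        measurable_fst).aestronglyMeasurable
    · by_cases hz : z.1 ∈ (Ioo (-1 : ℝ) 0)ᶜ
      · rw [indicator_of_mem hz]; simp
      · rw [indicator_of_notMem hz]; simp
  have h3 := (wc_const h1).add h2
  have e : ∀ u : ST n → E, ext0 w0 u = fun z =>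
      (Ioo (-1 : ℝ) 0).indicator (fun _ => (1 : ℝ)) z.1 • w0 z.2 +
      (Ioo (-1 : ℝ) 0)ᶜ.indicator (fun _ => (1 : ℝ)) z.1 • u z := by
    intro u
    funext z
    exact ext0_eq w0 u z
  simp only [e]
  exact h3

end Pool.Agent.Helper76.Jef
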