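import Pool.Agent.Helper42.Jef.Defs2

/-! # Gaussian derivatives are Schwartz; scaling; Fourier bound -/

open MeasureTheory Set Filter Topology
open scoped ENNReal FourierTransform Nat

namespace Pool.Agent.Helper76.Jef

open Pool.Agent.Helper42.Jef

variable {n : ℕ}

theorem poly_gauss_bdd (b : ℝ) (hb : 0 < b) (N : ℕ) :
    ∃ C : ℝ, 0 ≤ C ∧ ∀ r : ℝ, 0 ≤ r → (1 + r) ^ N * Real.exp (-b * r ^ 2) ≤ C := by
  refine ⟨2 ^ N * (N ! / b ^ N * Real.exp b), by positivity, fun r hr => ?_⟩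
  have h1 : 1 + r ≤ 2 * (1 + r ^ 2) := by nlinarith [sq_nonneg (r - 1), sq_nonneg r]
  have h2 : (1 + r) ^ N ≤ 2 ^ N * (1 + r ^ 2) ^ N := by
    rw [← mul_pow]
    exact pow_le_pow_left₀ (by positivity) h1 N
  have h3 : (b * (1 + r ^ 2)) ^ N / N ! ≤ Real.exp (b * (1 + r ^ 2)) :=
    Real.pow_div_factorial_le_exp _ (by positivity) N
  have h4 : (1 + r ^ 2) ^ N ≤ N ! / b ^ N * Real.exp (b * (1 + r ^ 2)) := by
    rw [mul_pow, div_le_iff₀ (by positivity)] at h3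
    rw [div_mul_eq_mul_div, le_div_iff₀ (by positivity)]
    linarith
  have h5 : Real.exp (b * (1 + r ^ 2)) * Real.exp (-b * r ^ 2) = Real.exp b := by
    rw [← Real.exp_add]; ring_nf
  calc (1 + r) ^ N * Real.exp (-b * r ^ 2)
      ≤ (2 ^ N * (N ! / b ^ N * Real.exp (b * (1 + r ^ 2)))) * Real.exp (-b * r ^ 2) := by
        gcongr
        exact h2.trans (by gcongr)
    _ = 2 ^ N * (N ! / b ^ N * (Real.exp (b * (1 + r ^ 2)) * Real.exp (-b * r ^ 2))) := by ring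
    _ = _ := by rw [h5]

theorem gauss_decay (b : ℝ) (hb : 0 < b) (k m : ℕ) : ∃ C : ℝ, ∀ x : Eu n,
    ‖x‖ ^ k * ‖iteratedFDeriv ℝ m (fun x : Eu n => Real.exp (-b * ‖x‖ ^ 2)) x‖ ≤ C := by
  have hf : (fun x : Eu n => -b * ‖x‖ ^ 2).HasTemperateGrowth := by
    have h1 : (fun x : Eu n => ‖x‖ ^ 2).HasTemperateGrowth :=
      Function.hasTemperateGrowth_norm_sq _
    exact (Function.HasTemperateGrowth.const (-b)).mul h1
  obtain ⟨l, C, hC, hgr⟩ := hf.norm_iteratedFDeriv_le_uniform m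
  obtain ⟨C', hC', hpoly⟩ := poly_gauss_bdd b hb (k + l * m)
  refine ⟨m ! * (1 + C) ^ m * C', fun x => ?_⟩
  have hg : ContDiff ℝ (m : ℕ∞) Real.exp := Real.contDiff_exp
  have hD1 : 1 ≤ (1 + C) * (1 + ‖x‖) ^ l := by
    have : 1 ≤ (1 + ‖x‖) ^ l := one_le_pow₀ (by linarith [norm_nonneg x])
    nlinarith
  have h1 := norm_iteratedFDeriv_comp_le (𝕜 := ℝ) (g := Real.exp)
    (f := fun x : Eu n => -b * ‖x‖ ^ 2) (n := m) (N := (m : ℕ∞)) hg
    (hf.1.of_le (by exact_mod_cast le_top)) le_rfl x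
    (C := Real.exp (-b * ‖x‖ ^ 2)) (D := (1 + C) * (1 + ‖x‖) ^ l)
    (fun i _ => by
      rw [norm_iteratedFDeriv_eq_norm_iteratedDeriv, iteratedDeriv_eq_iterate]
      simp [Real.iter_deriv_exp])
    (fun i hi1 hi2 => by
      calc ‖iteratedFDeriv ℝ i (fun x : Eu n => -b * ‖x‖ ^ 2) x‖ ≤ C * (1 + ‖x‖) ^ l := hgr i hi2 x
        _ ≤ (1 + C) * (1 + ‖x‖) ^ l := by gcongr; linarith
        _ = ((1 + C) * (1 + ‖x‖) ^ l) ^ 1 := (pow_one _).symm
        _ ≤ _ := pow_le_pow_right₀ hD1 hi1)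
  have h2 : ‖x‖ ^ k ≤ (1 + ‖x‖) ^ k := pow_le_pow_left₀ (norm_nonneg x) (by linarith) k
  have h3 := hpoly ‖x‖ (norm_nonneg x)
  calc ‖x‖ ^ k * ‖iteratedFDeriv ℝ m (fun x : Eu n => Real.exp (-b * ‖x‖ ^ 2)) x‖
      ≤ (1 + ‖x‖) ^ k * (m ! * Real.exp (-b * ‖x‖ ^ 2) * ((1 + C) * (1 + ‖x‖) ^ l) ^ m) := by
        gcongr
        exact h1
    _ = m ! * (1 + C) ^ m * ((1 + ‖x‖) ^ (k + l * m) * Real.exp (-b * ‖x‖ ^ 2)) := by
        rw [mul_pow, ← pow_mul, pow_add]; ring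
    _ ≤ _ := by gcongr

/-- `f` is (the real form of) a Schwartz function -/
def IsS (f : Eu n → ℝ) : Prop := ∃ F : SchwartzMap (Eu n) ℂ, ∀ x, F x = (f x : ℂ)

theorem isS_gauss (b c : ℝ) (hb : 0 < b) : IsS fun x : Eu n => c * Real.exp (-b * ‖x‖ ^ 2) := by
  let g : SchwartzMap (Eu n) ℝ :=
    { toFun := fun x => Real.exp (-b * ‖x‖ ^ 2)
      smooth' := by
        have : ContDiff ℝ (⊤ : ℕ∞) fun x : Eu n => ‖x‖ ^ 2 := contDiff_norm_sq ℝ
        exact (contDiff_const.mul this).exp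
      decay' := fun k m => gauss_decay b hb k m }
  refine ⟨SchwartzMap.postcompCLM (𝕜 := ℝ) Complex.ofRealCLM (c • g), fun x => ?_⟩
  rfl

theorem IsS.hasFDerivAt {f : Eu n → ℝ} (hf : IsS f) (x : Eu n) : HasFDerivAt f (fderiv ℝ f x) x := by
  obtain ⟨F, hF⟩ := hf
  have h1 : f = fun x => Complex.reCLM (F x) := by
    funext x
    rw [hF]
    simp
  have h2 : DifferentiableAt ℝ f x := by
    rw [h1]
    exact (Complex.reCLM.differentiableAt).comp x F.differentiableAt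
  exact h2.hasFDerivAt

theorem IsS.fderiv_eq {f : Eu n → ℝ} (F : SchwartzMap (Eu n) ℂ) (hF : ∀ x, F x = (f x : ℂ))
    (x v : Eu n) : fderiv ℝ F x v = ((fderiv ℝ f x v : ℝ) : ℂ) := by
  have h := IsS.hasFDerivAt ⟨F, hF⟩ x
  have h1 : (F : Eu n → ℂ) = fun x => Complex.ofRealCLM (f x) := by
    funext x
    rw [hF]
    rfl
  have h2 : HasFDerivAt (F : Eu n → ℂ) (Complex.ofRealCLM.comp (fderiv ℝ f x)) x := by
    rw [h1]
    exact (Complex.ofRealCLM.hasFDerivAt).comp x h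
  rw [h2.fderiv]
  rfl

open scoped LineDeriv in
theorem isS_pd {f : Eu n → ℝ} (hf : IsS f) (i : Fin n) : IsS (pd i f) := by
  obtain ⟨F, hF⟩ := hf
  refine ⟨∂_{bv i} F, fun x => ?_⟩
  rw [SchwartzMap.lineDerivOp_apply_eq_fderiv, IsS.fderiv_eq F hF]
  rfl

theorem isS_pds {f : Eu n → ℝ} (hf : IsS f) (l : List (Fin n)) : IsS (pds l f) := by
  induction l with
  | nil => exact hf
  | cons i l ih => exact isS_pd ih i

theorem IsS.integrable {f : Eu n → ℝ} (hf : IsS f) : Integrable f := by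
  obtain ⟨F, hF⟩ := hf
  have h1 : f = fun x => Complex.reCLM (F x) := by
    funext x
    rw [hF]
    simp
  rw [h1]
  exact Complex.reCLM.integrable_comp F.integrable

theorem IsS.continuous {f : Eu n → ℝ} (hf : IsS f) : Continuous f := by
  obtain ⟨F, hF⟩ := hf
  have h1 : f = fun x => Complex.reCLM (F x) := by
    funext x
    rw [hF]
    simp
  rw [h1]
  exact Complex.reCLM.continuous.comp F.continuous

theorem norm_bv (i : Fin n) : ‖(bv i : Eu n)‖ = 1 := by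
  simp [bv]

open scoped LineDeriv in
theorem fourier_pd {f : Eu n → ℝ} (hf : IsS f) (i : Fin n) (ξ : Eu n) :
    ‖𝓕 (fun x => ((pd i f x : ℝ) : ℂ)) ξ‖ ≤ 2 * Real.pi * ‖ξ‖ * ‖𝓕 (fun x => (f x : ℂ)) ξ‖ := by
  obtain ⟨F, hF⟩ := hf
  have h1 : (fun x => ((pd i f x : ℝ) : ℂ)) = ((∂_{bv i} F : SchwartzMap (Eu n) ℂ) : Eu n → ℂ) := by
    funext x
    rw [SchwartzMap.lineDerivOp_apply_eq_fderiv, IsS.fderiv_eq F hF]
    rfl
  have h2 : (fun x => (f x : ℂ)) = (F : Eu n → ℂ) := by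
    funext x
    rw [hF]
  rw [h1, h2, ← SchwartzMap.fourier_coe, ← SchwartzMap.fourier_coe,
    SchwartzMap.fourier_lineDerivOp_eq]
  have h3 : (fun x : Eu n => inner ℝ x (bv i)).HasTemperateGrowth :=
    ((innerSL ℝ).flip (bv i)).hasTemperateGrowth
  rw [_root_.smul_apply, SchwartzMap.smulLeftCLM_apply h3]
  rw [norm_smul, norm_smul]
  have h4 : ‖(2 * (Real.pi : ℂ) * Complex.I)‖ = 2 * Real.pi := by
    simp [abs_of_pos Real.pi_pos]
  have h5 : ‖inner ℝ ξ (bv i)‖ ≤ ‖ξ‖ := by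
    refine (norm_inner_le_norm _ _).trans ?_
    rw [norm_bv, mul_one]
  rw [h4, ← mul_assoc]
  gcongr

theorem fourier_pds {f : Eu n → ℝ} (hf : IsS f) (l : List (Fin n)) (ξ : Eu n) :
    ‖𝓕 (fun x => ((pds l f x : ℝ) : ℂ)) ξ‖ ≤
      (2 * Real.pi * ‖ξ‖) ^ l.length * ‖𝓕 (fun x => (f x : ℂ)) ξ‖ := by
  induction l with
  | nil => simp [pds]
  | cons i l ih =>
    have h1 := fourier_pd (isS_pds hf l) i ξ
    have h2 : pds (i :: l) f = pd i (pds l f) := rfl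
    rw [h2, List.length_cons]
    refine h1.trans ?_
    calc 2 * Real.pi * ‖ξ‖ * ‖𝓕 (fun x => ((pds l f x : ℝ) : ℂ)) ξ‖
        ≤ 2 * Real.pi * ‖ξ‖ * ((2 * Real.pi * ‖ξ‖) ^ l.length * ‖𝓕 (fun x => (f x : ℂ)) ξ‖) := by
          gcongr
      _ = _ := by rw [pow_succ]; ring

theorem isS_Gs {s : ℝ} (hs : 0 < s) : IsS (Gs (n := n) s) := by
  have h := isS_gauss (n := n) (1 / (4 * s)) ((4 * Real.pi * s) ^ (-(n : ℝ) / 2)) (by positivity)
  have h2 : (fun x : Eu n => (4 * Real.pi * s) ^ (-(n : ℝ) / 2) *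
      Real.exp (-(1 / (4 * s)) * ‖x‖ ^ 2)) = Gs s := by
    funext x
    unfold Gs
    congr 2
    ring
  rwa [h2] at h

theorem fourier_Gs {s : ℝ} (hs : 0 < s) (ξ : Eu n) :
    ‖𝓕 (fun x => ((Gs s x : ℝ) : ℂ)) ξ‖ = Real.exp (-((2 * Real.pi * ‖ξ‖) ^ 2 * s)) := by
  set b : ℝ := 1 / (4 * s) with hb
  have hb0 : 0 < b := by positivity
  have hbc : 0 < ((b : ℝ) : ℂ).re := by simpa using hb0
  have h1 : (fun x : Eu n => ((Gs s x : ℝ) : ℂ)) =
      fun x => (((4 * Real.pi * s) ^ (-(n : ℝ) / 2) : ℝ) : ℂ) • Complex.exp (-(b : ℂ) * ‖x‖ ^ 2) := by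
    funext x
    unfold Gs
    rw [Complex.ofReal_mul, smul_eq_mul, Complex.ofReal_exp]
    congr 2
    push_cast
    rw [hb]
    push_cast
    ring
  rw [h1]
  have h2 := fourier_gaussian_innerProductSpace (V := Eu n) hbc ξ
  have h3 : 𝓕 (fun x : Eu n => (((4 * Real.pi * s) ^ (-(n : ℝ) / 2) : ℝ) : ℂ) •
      Complex.exp (-(b : ℂ) * ‖x‖ ^ 2)) ξ = (((4 * Real.pi * s) ^ (-(n : ℝ) / 2) : ℝ) : ℂ) •
      𝓕 (fun x : Eu n => Complex.exp (-(b : ℂ) * ‖x‖ ^ 2)) ξ := by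
    simp only [Real.fourier_eq, smul_comm _ (((4 * Real.pi * s) ^ (-(n : ℝ) / 2) : ℝ) : ℂ)]
    rw [integral_smul]
  rw [h3, h2]
  have h4 : ((Real.pi : ℂ) / (b : ℂ)) ^ ((Module.finrank ℝ (Eu n) : ℂ) / 2) =
      (((4 * Real.pi * s) ^ ((n : ℝ) / 2) : ℝ) : ℂ) := by
    rw [Complex.ofReal_cpow (by positivity)]
    congr 1
    · rw [hb]
      push_cast
      field_simp
    · simp
  have h5 : Complex.exp (-(Real.pi : ℂ) ^ 2 * (‖ξ‖ : ℂ) ^ 2 / (b : ℂ)) =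
      ((Real.exp (-((2 * Real.pi * ‖ξ‖) ^ 2 * s)) : ℝ) : ℂ) := by
    rw [Complex.ofReal_exp]
    congr 1
    rw [hb]
    push_cast
    have : (s : ℂ) ≠ 0 := by exact_mod_cast hs.ne'
    field_simp
    ring
  rw [h4, h5, smul_eq_mul, ← Complex.ofReal_mul, ← Complex.ofReal_mul, Complex.norm_real,
    ← mul_assoc, ← Real.rpow_add (by positivity)]
  have h6 : -(n : ℝ) / 2 + (n : ℝ) / 2 = 0 := by ring
  rw [h6, Real.rpow_zero, one_mul, Real.norm_eq_abs, abs_of_pos (Real.exp_pos _)]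

theorem fourier_pds_Gs {s : ℝ} (hs : 0 < s) (l : List (Fin n)) (ξ : Eu n) :
    ‖𝓕 (fun x => ((pds l (Gs s) x : ℝ) : ℂ)) ξ‖ ≤
      (2 * Real.pi * ‖ξ‖) ^ l.length * Real.exp (-((2 * Real.pi * ‖ξ‖) ^ 2 * s)) := by
  have := fourier_pds (isS_Gs (n := n) hs) l ξ
  rwa [fourier_Gs hs ξ] at this

/-! ### scaling -/

theorem pds_smul (a : ℝ) {f : Eu n → ℝ} (hf : IsS f) (l : List (Fin n)) :
    pds l (fun x => a * f x) = fun x => a * pds l f x := by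
  induction l with
  | nil => rfl
  | cons i l ih =>
    have h2 : ∀ g : Eu n → ℝ, pds (i :: l) g = pd i (pds l g) := fun _ => rfl
    rw [h2, ih, h2]
    funext x
    unfold pd
    have h3 := (isS_pds hf l).hasFDerivAt x
    rw [(h3.const_mul a).fderiv]
    rfl

theorem pds_comp_smul (c : ℝ) {f : Eu n → ℝ} (hf : IsS f) (l : List (Fin n)) :
    pds l (fun x => f (c • x)) = fun x => c ^ l.length * pds l f (c • x) := by
  induction l with
  | nil => funext x; simp [pds]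
  | cons i l ih =>
    have h2 : ∀ g : Eu n → ℝ, pds (i :: l) g = pd i (pds l g) := fun _ => rfl
    rw [h2, ih, h2]
    funext x
    unfold pd
    have h3 := (isS_pds hf l).hasFDerivAt (c • x)
    have h4 : HasFDerivAt (fun y : Eu n => c • y) (c • ContinuousLinearMap.id ℝ (Eu n)) x :=
      (hasFDerivAt_id x).const_smul c
    have h5 := (h3.comp x h4).const_mul (c ^ l.length)
    have h6 : fderiv ℝ (fun y : Eu n => c ^ l.length * pds l f (c • y)) x = _ := h5.fderiv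
    rw [h6]
    simp [pow_succ, mul_assoc]

theorem Gs_scale {s : ℝ} (hs : 0 < s) (x : Eu n) :
    Gs s x = (s ^ (-(1 / 2) : ℝ)) ^ n * Gs 1 ((s ^ (-(1 / 2) : ℝ)) • x) := by
  unfold Gs
  have h1 : (4 * Real.pi * s) ^ (-(n : ℝ) / 2) =
      (s ^ (-(1 / 2) : ℝ)) ^ n * (4 * Real.pi * 1) ^ (-(n : ℝ) / 2) := by
    rw [Real.mul_rpow (by positivity) hs.le, mul_one, mul_comm]
    congr 1
    rw [← Real.rpow_natCast, ← Real.rpow_mul hs.le]
    congr 1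
    ring
  have h2 : ‖(s ^ (-(1 / 2) : ℝ)) • x‖ ^ 2 = ‖x‖ ^ 2 / s := by
    rw [norm_smul, mul_pow, Real.norm_eq_abs, sq_abs, ← Real.rpow_natCast, ← Real.rpow_mul hs.le]
    norm_num
    rw [Real.rpow_neg_one]
    field_simp
  rw [h1, h2, mul_assoc]
  congr 3
  field_simp

theorem pds_Gs_scale {s : ℝ} (hs : 0 < s) (l : List (Fin n)) (x : Eu n) :
    pds l (Gs s) x =
      (s ^ (-(1 / 2) : ℝ)) ^ (n + l.length) * pds l (Gs 1) ((s ^ (-(1 / 2) : ℝ)) • x) := by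
  set c : ℝ := s ^ (-(1 / 2) : ℝ) with hc
  have hc0 : 0 < c := Real.rpow_pos_of_pos hs _
  have h1 : Gs (n := n) s = fun x => c ^ n * Gs 1 (c • x) := by
    funext y; exact Gs_scale hs y
  have h0 : IsS (fun x : Eu n => Gs 1 (c • x)) := by
    have h := isS_gauss (n := n) (c ^ 2 / 4) ((4 * Real.pi * 1) ^ (-(n : ℝ) / 2)) (by positivity)
    have h2 : (fun x : Eu n => (4 * Real.pi * 1) ^ (-(n : ℝ) / 2) *
        Real.exp (-(c ^ 2 / 4) * ‖x‖ ^ 2)) = fun x => Gs 1 (c • x) := by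
      funext x
      unfold Gs
      rw [norm_smul, mul_pow, Real.norm_eq_abs, sq_abs]
      congr 2
      ring
    rwa [h2] at h
  rw [h1, pds_smul _ h0, pds_comp_smul c (isS_Gs one_pos)]
  ring

end Pool.Agent.Helper76.Jef
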